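import Mathlib

namespace Pool.Agent.Results.MP_09575c_lc.No

open Classical

/-- submodular functions on the Boolean cube -/
def Submod {k : ℕ} (f : (Fin k → Bool) → ℝ) : Prop :=
  ∀ u v, f (u ⊓ v) + f (u ⊔ v) ≤ f u + f v

/-- expressible by binary submodular functions with `j` extra variables -/
def Expressible {n : ℕ} (f : (Fin n → Bool) → ℝ) : Prop :=
  ∃ (j N : ℕ) (g : Fin N → (Fin 2 → Bool) → ℝ) (α : Fin N → ℝ) (z z' : Fin N → Fin n ⊕ Fin j)
    (κ : ℝ), (∀ i, Submod (g i)) ∧ (∀ i, 0 ≤ α i) ∧ ∀ x : Fin n → Bool,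
      IsLeast (Set.range fun y : Fin j → Bool =>
        ∑ i, α i * g i ![Sum.elim x y (z i), Sum.elim x y (z' i)] + κ) (f x)

/-- upper fan -/
noncomputable def upperFan {k : ℕ} (A : Finset (Fin k → Bool)) (x : Fin k → Bool) : ℝ :=
  if A.sup id ≤ x then -2 else if ∃ a ∈ A, a ≤ x then -1 else 0

/-- lower fan -/
noncomputable def lowerFan {k : ℕ} (A : Finset (Fin k → Bool)) (x : Fin k → Bool) : ℝ :=
  if x ≤ A.inf id then -2 else if ∃ a ∈ A, x ≤ a then -1 else 0

/-- upper and lower fans -/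
def IsFan {k : ℕ} (φ : (Fin k → Bool) → ℝ) : Prop :=
  ∃ A : Finset (Fin k → Bool), (∀ a ∈ A, ∀ b ∈ A, a ≠ b → ¬ a ≤ b) ∧
    (((∀ a ∈ A, ∀ b ∈ A, a ≠ b → a ⊔ b = A.sup id) ∧ φ = upperFan A) ∨
      ((∀ a ∈ A, ∀ b ∈ A, a ≠ b → a ⊓ b = A.inf id) ∧ φ = lowerFan A))

/-- the cone of fans, up to a constant -/
def InFanCone {k : ℕ} (f : (Fin k → Bool) → ℝ) : Prop :=
  ∃ (N : ℕ) (φ : Fin N → (Fin k → Bool) → ℝ) (α : Fin N → ℝ) (κ : ℝ),
    (∀ i, IsFan (φ i)) ∧ (∀ i, 0 ≤ α i) ∧ ∀ x, f x = ∑ i, α i * φ i x + κ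

section
variable {L : Type} [DistribLattice L] [OrderBot L]

noncomputable def uf (A : Finset L) (x : L) : ℝ :=
  if A.sup id ≤ x then -2 else if ∃ a ∈ A, a ≤ x then -1 else 0

theorem uf_cases (A : Finset L) (x : L) :
    (A.sup id ≤ x ∧ uf A x = -2) ∨ (¬ A.sup id ≤ x ∧ (∃ a ∈ A, a ≤ x) ∧ uf A x = -1) ∨
      (¬ A.sup id ≤ x ∧ (¬ ∃ a ∈ A, a ≤ x) ∧ uf A x = 0) := by
  unfold uf
  split_ifs with h1 h2
  · exact Or.inl ⟨h1, rfl⟩
  · exact Or.inr (Or.inl ⟨h1, h2, rfl⟩)
  · exact Or.inr (Or.inr ⟨h1, h2, rfl⟩)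

theorem uf_anti (A : Finset L) {x y : L} (h : x ≤ y) : uf A y ≤ uf A x := by
  rcases uf_cases A x with ⟨a, b⟩ | ⟨a, ⟨c, hc, hc'⟩, b⟩ | ⟨a, c, b⟩ <;>
  rcases uf_cases A y with ⟨a', b'⟩ | ⟨a', c', b'⟩ | ⟨a', c', b'⟩ <;>
  first
    | linarith
    | exact absurd (a.trans h) a'
    | exact absurd ⟨c, hc, hc'.trans h⟩ c'

theorem uf_le (A : Finset L) (x : L) : uf A x ≤ 0 := by
  rcases uf_cases A x with ⟨a, b⟩ | ⟨a, c, b⟩ | ⟨a, c, b⟩ <;> linarith

theorem uf_ge (A : Finset L) (x : L) : -2 ≤ uf A x := by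
  rcases uf_cases A x with ⟨a, b⟩ | ⟨a, c, b⟩ | ⟨a, c, b⟩ <;> linarith

theorem uf_inf (A : Finset L) {x : L} (y : L) (h : A.sup id ≤ x) : uf A (x ⊓ y) = uf A y := by
  unfold uf
  have e1 : A.sup id ≤ x ⊓ y ↔ A.sup id ≤ y := by simp only [le_inf_iff, h, true_and]
  have e2 : (∃ a ∈ A, a ≤ x ⊓ y) ↔ ∃ a ∈ A, a ≤ y := by
    refine exists_congr fun a => and_congr_right fun ha => ?_
    have : a ≤ x := (Finset.le_sup (f := id) ha).trans h
    simp only [le_inf_iff, this, true_and]
  simp only [e1, e2]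

theorem uf_sub (A : Finset L) (hA : ∀ a ∈ A, ∀ b ∈ A, a ≠ b → a ⊔ b = A.sup id) (u v : L) :
    uf A (u ⊓ v) + uf A (u ⊔ v) ≤ uf A u + uf A v := by
  have m1 := uf_anti A (le_sup_left : u ≤ u ⊔ v)
  have m2 := uf_anti A (le_sup_right : v ≤ u ⊔ v)
  have m3 := uf_le A (u ⊓ v)
  rcases uf_cases A u with ⟨a, b⟩ | ⟨a, ⟨c, hc, hc'⟩, b⟩ | ⟨a, c, b⟩
  · rw [uf_inf A v a]; linarith
  · rcases uf_cases A v with ⟨a', b'⟩ | ⟨a', ⟨d, hd, hd'⟩, b'⟩ | ⟨a', c', b'⟩
    · rw [inf_comm, uf_inf A u a']; linarith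
    · by_cases hcd : c = d
      · subst hcd
        rcases uf_cases A (u ⊓ v) with ⟨p, q⟩ | ⟨p, r, q⟩ | ⟨p, r, q⟩
        · linarith
        · linarith
        · exact absurd ⟨c, hc, le_inf hc' hd'⟩ r
      · have : A.sup id ≤ u ⊔ v := by rw [← hA c hc d hd hcd]; exact sup_le_sup hc' hd'
        rcases uf_cases A (u ⊔ v) with ⟨p, q⟩ | ⟨p, r, q⟩ | ⟨p, r, q⟩
        · linarith
        · exact absurd this p
        · exact absurd this p
    · linarith
  · linarith

end

abbrev B := Fin 6 → Bool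

def cnt (x : B) : ℕ := ∑ i, (x i).toNat

/-- the pairs on which the rank function is modular -/
def Flat (u v : B) : Prop := min (cnt (u ⊓ v)) 3 + min (cnt (u ⊔ v)) 3 = min (cnt u) 3 + min (cnt v) 3

instance (u v : B) : Decidable (Flat u v) := by unfold Flat; infer_instance

def u0 : B := ![true, true, true, false, false, false]
def v0 : B := ![true, true, false, true, false, false]

theorem mask : ∀ k : Fin 6, Flat (u0 ⊓ fun i => decide (i ≠ k)) (v0 ⊓ fun i => decide (i ≠ k)) ∨
    ∃ u v : B, Flat u v ∧ (u ⊓ fun i => decide (i ≠ k)) = u0 ∧ (v ⊓ fun i => decide (i ≠ k)) = v0 ∧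
      ((u ⊓ v) ⊓ fun i => decide (i ≠ k)) = u0 ⊓ v0 ∧
      ((u ⊔ v) ⊓ fun i => decide (i ≠ k)) = u0 ⊔ v0 := by
  intro k
  fin_cases k
  · left; decide
  · left; decide
  · left; decide
  · left; decide
  · right
    exact ⟨![true, true, true, false, true, false], ![true, true, false, true, true, false],
      by decide⟩
  · right
    exact ⟨![true, true, true, false, false, true], ![true, true, false, true, false, true],
      by decide⟩

theorem up_key (A : Finset B)
    (h : ∀ u v, Flat u v → uf A (u ⊓ v) + uf A (u ⊔ v) = uf A u + uf A v) :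
    uf A (u0 ⊓ v0) + uf A (u0 ⊔ v0) = uf A u0 + uf A v0 := by
  by_cases hJ : ∃ k, A.sup id k = false
  · obtain ⟨k, hk⟩ := hJ
    have hm : A.sup id ≤ fun i => decide (i ≠ k) := by
      intro i
      by_cases hi : i = k
      · subst hi; rw [hk]; exact bot_le
      · simp [hi]
    have e : ∀ x : B, uf A (x ⊓ fun i => decide (i ≠ k)) = uf A x := fun x => by
      rw [inf_comm, uf_inf A x hm]
    rcases mask k with h1 | ⟨u, v, h1, h2, h3, h4, h5⟩
    · have := h _ _ h1
      rw [← inf_inf_distrib_right, ← inf_sup_right, e, e, e, e] at this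
      exact this
    · have := h _ _ h1
      rw [← h4, ← h5, e, e, this, ← e u, ← e v, h2, h3]
  · exfalso
    have ht : ∀ x : B, (∃ k, x k = false) → ¬ A.sup id ≤ x := by
      rintro x ⟨k, hk⟩ hle
      apply hJ
      have := hle k
      rw [hk] at this
      exact ⟨k, le_bot_iff.1 this⟩
    have g1 : ∀ x : B, (∃ k, x k = false) → -1 ≤ uf A x := by
      intro x hx
      rcases uf_cases A x with ⟨a, b⟩ | ⟨a, c, b⟩ | ⟨a, c, b⟩
      · exact absurd a (ht x hx)
      · linarith
      · linarith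
    have top : uf A ![true, true, true, true, true, true] = -2 := by
      unfold uf
      rw [if_pos]
      intro i; fin_cases i <;> exact le_top
    have a1 := h ![true, true, true, true, false, true] ![true, true, true, true, true, false]
      (by decide)
    have a2 := h ![true, true, true, false, true, true] ![true, true, true, true, true, false]
      (by decide)
    have a3 := h ![true, true, true, true, false, false] ![true, true, true, false, true, false]
      (by decide)
    have b1 : (![true, true, true, true, false, true] ⊓ ![true, true, true, true, true, false] : B)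
      = ![true, true, true, true, false, false] := by decide
    have b2 : (![true, true, true, true, false, true] ⊔ ![true, true, true, true, true, false] : B)
      = ![true, true, true, true, true, true] := by decide
    have b3 : (![true, true, true, false, true, true] ⊓ ![true, true, true, true, true, false] : B)
      = ![true, true, true, false, true, false] := by decide
    have b4 : (![true, true, true, false, true, true] ⊔ ![true, true, true, true, true, false] : B)
      = ![true, true, true, true, true, true] := by decide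
    have b5 : (![true, true, true, true, false, false] ⊔ ![true, true, true, false, true, false] : B)
      = ![true, true, true, true, true, false] := by decide
    rw [b1, b2, top] at a1
    rw [b3, b4, top] at a2
    rw [b5] at a3
    have c1 := g1 ![true, true, true, true, false, true] ⟨4, rfl⟩
    have c2 := g1 ![true, true, true, true, true, false] ⟨5, rfl⟩
    have c3 := g1 ![true, true, true, false, true, true] ⟨3, rfl⟩
    have d1 := uf_le A ![true, true, true, true, false, false]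
    have d2 := uf_le A ![true, true, true, false, true, false]
    have d3 := uf_le A
      (![true, true, true, true, false, false] ⊓ ![true, true, true, false, true, false])
    linarith

/-- reversed complement -/
def rc (x : B) : B := fun i => !x (![5, 4, 3, 2, 1, 0] i)

theorem rc_rc : ∀ x : B, rc (rc x) = x := by
  intro x; funext i; fin_cases i <;> simp [rc]

theorem rc_inf (x y : B) : rc (x ⊓ y) = rc x ⊔ rc y := by
  funext i; simp only [rc, Pi.inf_apply, Pi.sup_apply]
  cases x (![5, 4, 3, 2, 1, 0] i) <;> cases y (![5, 4, 3, 2, 1, 0] i) <;> rfl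

theorem rc_sup (x y : B) : rc (x ⊔ y) = rc x ⊓ rc y := by
  funext i; simp only [rc, Pi.inf_apply, Pi.sup_apply]
  cases x (![5, 4, 3, 2, 1, 0] i) <;> cases y (![5, 4, 3, 2, 1, 0] i) <;> rfl

theorem rc_le (x y : B) : rc x ≤ rc y ↔ y ≤ x := by
  constructor
  · intro h
    rw [← inf_eq_left] at h
    rw [← sup_eq_left, ← rc_rc (x ⊔ y), rc_sup, h, rc_rc]
  · intro h
    rw [← inf_eq_left, ← rc_sup, sup_eq_left.2 h]

theorem low_eq (A : Finset B) (x : B) : lowerFan A x = uf (A.image rc) (rc x) := by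
  unfold lowerFan uf
  have e1 : x ≤ A.inf id ↔ (A.image rc).sup id ≤ rc x := by
    simp only [Finset.le_inf_iff, Finset.sup_le_iff, Finset.mem_image, id]
    constructor
    · rintro h _ ⟨a, ha, rfl⟩; exact (rc_le _ _).2 (h a ha)
    · intro h a ha; exact (rc_le _ _).1 (h _ ⟨a, ha, rfl⟩)
  have e2 : (∃ a ∈ A, x ≤ a) ↔ ∃ a ∈ A.image rc, a ≤ rc x := by
    simp only [Finset.mem_image]
    constructor
    · rintro ⟨a, ha, h⟩; exact ⟨_, ⟨a, ha, rfl⟩, (rc_le _ _).2 h⟩
    · rintro ⟨_, ⟨a, ha, rfl⟩, h⟩; exact ⟨a, ha, (rc_le _ _).1 h⟩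
  simp only [e1, e2]

theorem cnt_rc (x : B) : cnt (rc x) + cnt x = 6 := by
  simp only [cnt, rc, Fin.sum_univ_six]
  revert x
  decide

theorem cnt_add (u v : B) : cnt (u ⊓ v) + cnt (u ⊔ v) = cnt u + cnt v := by
  simp only [cnt, ← Finset.sum_add_distrib]
  refine Finset.sum_congr rfl fun i _ => ?_
  simp only [Pi.inf_apply, Pi.sup_apply]
  cases u i <;> cases v i <;> rfl

theorem cnt_mono {u v : B} (h : u ≤ v) : cnt u ≤ cnt v := by
  refine Finset.sum_le_sum fun i _ => ?_
  have := h i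
  revert this
  cases u i <;> cases v i <;> simp

theorem flat_rc {u v : B} (h : Flat u v) : Flat (rc u) (rc v) := by
  unfold Flat at *
  rw [← rc_sup, ← rc_inf]
  have := cnt_rc u
  have := cnt_rc v
  have := cnt_rc (u ⊓ v)
  have := cnt_rc (u ⊔ v)
  have := cnt_add u v
  omega

theorem fan_key (φ : B → ℝ) (hφ : IsFan φ) : Submod φ ∧
    ((∀ u v, Flat u v → φ (u ⊓ v) + φ (u ⊔ v) = φ u + φ v) →
      φ (u0 ⊓ v0) + φ (u0 ⊔ v0) = φ u0 + φ v0) := by
  obtain ⟨A, -, ⟨hA, rfl⟩ | ⟨hA, rfl⟩⟩ := hφ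
  · have e : upperFan A = uf A := by
      funext x; unfold upperFan uf; congr
    rw [e]
    exact ⟨uf_sub A hA, up_key A⟩
  · have hA' : ∀ a ∈ A.image rc, ∀ b ∈ A.image rc, a ≠ b → a ⊔ b = (A.image rc).sup id := by
      simp only [Finset.mem_image]
      rintro _ ⟨a, ha, rfl⟩ _ ⟨b, hb, rfl⟩ hab
      rw [← rc_inf, hA a ha b hb fun h => hab (by rw [h])]
      apply le_antisymm
      · rw [← hA a ha b hb fun h => hab (by rw [h]), rc_inf]
        exact sup_le (Finset.le_sup (f := id) (Finset.mem_image_of_mem rc ha))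
          (Finset.le_sup (f := id) (Finset.mem_image_of_mem rc hb))
      · refine Finset.sup_le ?_
        simp only [Finset.mem_image]
        rintro _ ⟨c, hc, rfl⟩
        exact (rc_le _ _).2 (Finset.inf_le (f := id) hc)
    constructor
    · intro u v
      simp only [low_eq, rc_inf, rc_sup]
      linarith [uf_sub _ hA' (rc u) (rc v)]
    · intro h
      have := up_key (A.image rc) (fun u v huv => by
        have h2 := h _ _ (flat_rc huv)
        simp only [low_eq, rc_inf, rc_sup, rc_rc] at h2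
        linarith)
      have e1 : rc u0 = u0 := by decide
      have e2 : rc v0 = v0 := by decide
      simp only [low_eq, rc_inf, rc_sup, e1, e2]
      linarith

theorem result : ∃ k : ℕ, 5 ≤ k ∧ ∃ f : (Fin k → Bool) → ℝ,
    Submod f ∧ Expressible f ∧ ¬ InFanCone f := by
  refine ⟨6, by norm_num, fun x => ((min (cnt x) 3 : ℕ) : ℝ), ?_, ?_, ?_⟩
  · intro u v
    have h1 := cnt_add u v
    have h2 := cnt_mono (inf_le_left : u ⊓ v ≤ u)
    have h3 := cnt_mono (inf_le_right : u ⊓ v ≤ v)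
    have : min (cnt (u ⊓ v)) 3 + min (cnt (u ⊔ v)) 3 ≤ min (cnt u) 3 + min (cnt v) 3 := by omega
    show ((min (cnt (u ⊓ v)) 3 : ℕ) : ℝ) + (min (cnt (u ⊔ v)) 3 : ℕ) ≤
      (min (cnt u) 3 : ℕ) + (min (cnt v) 3 : ℕ)
    exact_mod_cast this
  · refine ⟨1, 6, fun _ w => bif w 1 then 1 / 2 else ((w 0).toNat : ℝ), fun _ => 1,
      fun i => Sum.inl i, fun _ => Sum.inr 0, 0, fun _ u v => ?_, fun _ => zero_le_one, fun x => ?_⟩
    · simp only [Pi.inf_apply, Pi.sup_apply]
      cases u 0 <;> cases u 1 <;> cases v 0 <;> cases v 1 <;> norm_num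
    · have hv : ∀ y : Fin 1 → Bool, (∑ i : Fin 6, (1 : ℝ) * (fun w : Fin 2 → Bool =>
          bif w 1 then (1 / 2 : ℝ) else ((w 0).toNat : ℝ))
          ![Sum.elim x y (Sum.inl i), Sum.elim x y (Sum.inr 0)] + 0) =
          if y 0 then 3 else (cnt x : ℝ) := by
        intro y
        cases hy : y 0
        · simp [hy, cnt]
        · simp [hy]; norm_num
      simp only [hv]
      constructor
      · by_cases h : cnt x ≤ 3
        · exact ⟨fun _ => false, by simp [min_eq_left h]⟩
        · exact ⟨fun _ => true, by simp [min_eq_right (not_le.1 h).le]⟩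
      · rintro _ ⟨y, rfl⟩
        by_cases hy : y 0
        · simp [hy]
        · simp [hy]
  · rintro ⟨N, φ, α, κ, hφ, hα, hf⟩
    have key : ∀ u v : B, ((min (cnt u) 3 : ℕ) : ℝ) + (min (cnt v) 3 : ℕ) -
        (min (cnt (u ⊓ v)) 3 : ℕ) - (min (cnt (u ⊔ v)) 3 : ℕ) =
        ∑ i, α i * (φ i u + φ i v - φ i (u ⊓ v) - φ i (u ⊔ v)) := by
      intro u v
      have h1 := hf u
      have h2 := hf v
      have h3 := hf (u ⊓ v)
      have h4 := hf (u ⊔ v)
      simp only at h1 h2 h3 h4
      rw [h1, h2, h3, h4]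
      simp only [mul_add, mul_sub, Finset.sum_add_distrib, Finset.sum_sub_distrib]
      ring
    have z : ∑ i, α i * (φ i u0 + φ i v0 - φ i (u0 ⊓ v0) - φ i (u0 ⊔ v0)) = 0 := by
      refine Finset.sum_eq_zero fun i _ => ?_
      rcases (hα i).eq_or_lt with h | h
      · rw [← h, zero_mul]
      have := (fan_key _ (hφ i)).2 fun u v huv => by
        have k1 := key u v
        have k2 : ((min (cnt (u ⊓ v)) 3 : ℕ) : ℝ) + (min (cnt (u ⊔ v)) 3 : ℕ) =
            (min (cnt u) 3 : ℕ) + (min (cnt v) 3 : ℕ) := by exact_mod_cast huv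
        have k3 : ∑ i, α i * (φ i u + φ i v - φ i (u ⊓ v) - φ i (u ⊔ v)) = 0 := by linarith
        have k4 := (Finset.sum_eq_zero_iff_of_nonneg fun j _ => mul_nonneg (hα j)
          (by linarith [(fan_key _ (hφ j)).1 u v])).1 k3 i (Finset.mem_univ i)
        rcases mul_eq_zero.1 k4 with k5 | k5
        · exact absurd k5 h.ne'
        · linarith
      rw [show φ i u0 + φ i v0 - φ i (u0 ⊓ v0) - φ i (u0 ⊔ v0) = 0 by linarith, mul_zero]
    rw [← key] at z
    have a1 : cnt u0 = 3 := by decide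
    have a2 : cnt v0 = 3 := by decide
    have a3 : cnt (u0 ⊓ v0) = 2 := by decide
    have a4 : cnt (u0 ⊔ v0) = 4 := by decide
    rw [a1, a2, a3, a4] at z
    norm_num at z

end Pool.Agent.Results.MP_09575c_lc.No
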